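import Pool.Agent.Helper32.HP.Defs
import Pool.Agent.Helper18.SD.King

/-!
# H', block B2: a fixed irrational step and a fixed phase
-/

set_option autoImplicit false

open Filter Topology MeasureTheory
open scoped NNReal

namespace Pool.Agent.Helper17.HP

variable {Ω : Type*} [MeasurableSpace Ω] {q : Ω → ℝ → ℝ} {A : ℝ} {Λ : ℝ≥0}

/-- A weight function: values in `[0,1]`, zero outside `[0,A]`, Lipschitz in the second variable. -/
structure Wt (q : Ω → ℝ → ℝ) (A : ℝ) (Λ : ℝ≥0) : Prop where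
  meas : ∀ u, Measurable fun w => q w u
  nonneg : ∀ w u, 0 ≤ q w u
  le_one : ∀ w u, q w u ≤ 1
  supp : ∀ w u, u ∉ Set.Icc (0:ℝ) A → q w u = 0
  lip : ∀ w, LipschitzWith Λ (q w)

/-! ### Limits superior of bounded sequences -/

theorem limsup_le_of {u v e : ℕ → ℝ} {C c : ℝ} (hu : ∀ n, |u n| ≤ C) (hv : ∀ n, |v n| ≤ C)
    (he : Tendsto e atTop (𝓝 0)) (h : ∀ᶠ n in atTop, u n ≤ v n + c + e n) :
    limsup u atTop ≤ limsup v atTop + c := by
  have hbu : IsBoundedUnder (· ≤ ·) atTop u := isBoundedUnder_of ⟨C, fun n => (abs_le.1 (hu n)).2⟩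
  have hbv : IsBoundedUnder (· ≤ ·) atTop v := isBoundedUnder_of ⟨C, fun n => (abs_le.1 (hv n)).2⟩
  have hcu : IsCoboundedUnder (· ≤ ·) atTop u :=
    (isBoundedUnder_of ⟨-C, fun n => (abs_le.1 (hu n)).1⟩ : IsBoundedUnder (· ≥ ·) atTop u).isCoboundedUnder_le
  rw [limsup_le_iff hcu hbu]
  intro y hy
  have h1 : ∀ᶠ n in atTop, v n < limsup v atTop + (y - (limsup v atTop + c)) / 2 :=
    eventually_lt_of_limsup_lt (by linarith) hbv
  have h2 : ∀ᶠ n in atTop, e n < (y - (limsup v atTop + c)) / 2 :=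
    he.eventually (gt_mem_nhds (by linarith))
  filter_upwards [h, h1, h2] with n a b c
  linarith

theorem limsup_bdd {u : ℕ → ℝ} {C : ℝ} (hu : ∀ n, |u n| ≤ C) : |limsup u atTop| ≤ C := by
  have hbu : IsBoundedUnder (· ≤ ·) atTop u := isBoundedUnder_of ⟨C, fun n => (abs_le.1 (hu n)).2⟩
  have hcu : IsCoboundedUnder (· ≤ ·) atTop u :=
    (isBoundedUnder_of ⟨-C, fun n => (abs_le.1 (hu n)).1⟩ : IsBoundedUnder (· ≥ ·) atTop u).isCoboundedUnder_le
  rw [abs_le]
  constructor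
  · exact le_limsup_of_frequently_le (Frequently.of_forall fun n => (abs_le.1 (hu n)).1) hbu
  · exact limsup_le_of_le hcu (Eventually.of_forall fun n => (abs_le.1 (hu n)).2)

/-! ### The folded weight -/

/-- the periodic weight -/
noncomputable def H (q : Ω → ℝ → ℝ) (δ : ℝ) (w : Ω) (t : ℝ) : ℝ := ∑' m : ℤ, q w (δ * (t + m))

theorem supp' (hq : Wt q A Λ) {δ : ℝ} (h0 : 0 < δ) {M : ℕ} (hM : A < δ * M) (w : Ω) (t : ℝ) (m : ℤ)
    (hm : m ∉ Finset.Ico (-⌊t⌋) (M - ⌊t⌋)) : q w (δ * (t + m)) = 0 := by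
  apply hq.supp
  intro h
  apply hm
  rw [Finset.mem_Ico]
  have h1 : 0 ≤ t + m := by
    by_contra hc
    push Not at hc
    have := mul_neg_of_pos_of_neg h0 hc
    linarith [h.1]
  have h2 : t + m < M := by
    have h3 : δ * (t + m) < δ * M := lt_of_le_of_lt h.2 hM
    exact lt_of_mul_lt_mul_left h3 h0.le
  have hfl := Int.floor_le t
  have hfl' := Int.lt_floor_add_one t
  constructor
  · have h4 : (-(⌊t⌋ : ℝ)) - 1 < m := by linarith
    have h5 : -⌊t⌋ - 1 < m := by exact_mod_cast h4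
    omega
  · have h4 : (m : ℝ) < M - ⌊t⌋ := by linarith
    exact_mod_cast h4

theorem H_eq (hq : Wt q A Λ) {δ : ℝ} (h0 : 0 < δ) {M : ℕ} (hM : A < δ * M) (w : Ω) (t : ℝ) (I : Finset ℤ)
    (hI : Finset.Ico (-⌊t⌋) (M - ⌊t⌋) ⊆ I) : H q δ w t = ∑ m ∈ I, q w (δ * (t + m)) :=
  tsum_eq_sum fun m hm => supp' hq h0 hM w t m fun h => hm (hI h)

omit [MeasurableSpace Ω] in
theorem H_add_one (q : Ω → ℝ → ℝ) (δ : ℝ) (w : Ω) (t : ℝ) : H q δ w (t + 1) = H q δ w t := by
  unfold H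
  rw [← (Equiv.addRight (1 : ℤ)).tsum_eq (fun m : ℤ => q w (δ * (t + m)))]
  refine tsum_congr fun m => ?_
  congr 2
  rw [Equiv.coe_addRight]
  push_cast
  ring

omit [MeasurableSpace Ω] in
theorem H_add_int (q : Ω → ℝ → ℝ) (δ : ℝ) (w : Ω) (t : ℝ) (z : ℤ) : H q δ w (t + z) = H q δ w t := by
  unfold H
  rw [← (Equiv.addRight z).tsum_eq (fun m : ℤ => q w (δ * (t + m)))]
  refine tsum_congr fun m => ?_
  congr 2
  rw [Equiv.coe_addRight]
  push_cast
  ring

omit [MeasurableSpace Ω] in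
theorem H_fract (q : Ω → ℝ → ℝ) (δ : ℝ) (w : Ω) (t : ℝ) : H q δ w (Int.fract t) = H q δ w t := by
  conv_rhs => rw [← Int.fract_add_floor t]
  rw [H_add_int]

theorem H_range (hq : Wt q A Λ) {δ : ℝ} (h0 : 0 < δ) {M : ℕ} (hM : A < δ * M) (w : Ω) (t : ℝ) :
    H q δ w t = ∑ m ∈ Finset.range M, q w (δ * (Int.fract t + m)) := by
  rw [← H_fract, H_eq hq h0 hM w (Int.fract t) (Finset.Ico 0 M) (by simp)]
  symm
  refine Finset.sum_bij (fun m _ => (m : ℤ)) ?_ ?_ ?_ ?_
  · intro m hm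
    rw [Finset.mem_range] at hm
    rw [Finset.mem_Ico]
    omega
  · intro a _ b _ h
    exact_mod_cast h
  · intro b hb
    rw [Finset.mem_Ico] at hb
    refine ⟨b.toNat, ?_, ?_⟩
    · rw [Finset.mem_range]
      omega
    · omega
  · intro m _
    push_cast
    rfl

theorem H_nonneg (hq : Wt q A Λ) (δ : ℝ) (w : Ω) (t : ℝ) : 0 ≤ H q δ w t :=
  tsum_nonneg fun _ => hq.nonneg _ _

theorem H_le (hq : Wt q A Λ) {δ : ℝ} (h0 : 0 < δ) {M : ℕ} (hM : A < δ * M) (w : Ω) (t : ℝ) :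
    H q δ w t ≤ M := by
  rw [H_range hq h0 hM]
  calc _ ≤ ∑ m ∈ Finset.range M, (1 : ℝ) := Finset.sum_le_sum fun m _ => hq.le_one _ _
    _ = M := by simp

theorem H_lip (hq : Wt q A Λ) {δ : ℝ} (h0 : 0 < δ) {M : ℕ} (hM : A < δ * M) (w : Ω) (t t' : ℝ) :
    |H q δ w t - H q δ w t'| ≤ 2 * M * (Λ * δ) * |t - t'| := by
  rw [H_eq hq h0 hM w t (Finset.Ico (-⌊t⌋) (M - ⌊t⌋) ∪ Finset.Ico (-⌊t'⌋) (M - ⌊t'⌋)) Finset.subset_union_left,
    H_eq hq h0 hM w t' (Finset.Ico (-⌊t⌋) (M - ⌊t⌋) ∪ Finset.Ico (-⌊t'⌋) (M - ⌊t'⌋)) Finset.subset_union_right,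
    ← Finset.sum_sub_distrib]
  refine (Finset.abs_sum_le_sum_abs _ _).trans ?_
  have h1 : ∀ m : ℤ, |q w (δ * (t + m)) - q w (δ * (t' + m))| ≤ Λ * δ * |t - t'| := by
    intro m
    have h2 := (hq.lip w).dist_le_mul (δ * (t + m)) (δ * (t' + m))
    rw [Real.dist_eq, Real.dist_eq] at h2
    refine h2.trans (le_of_eq ?_)
    have h3 : δ * (t + m) - δ * (t' + m) = δ * (t - t') := by ring
    rw [h3, abs_mul, abs_of_pos h0]
    ring
  refine (Finset.sum_le_sum fun m _ => h1 m).trans ?_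
  rw [Finset.sum_const, nsmul_eq_mul]
  have h2 : ((Finset.Ico (-⌊t⌋) (M - ⌊t⌋) ∪ Finset.Ico (-⌊t'⌋) (M - ⌊t'⌋)).card : ℝ) ≤ 2 * M := by
    have h3 := Finset.card_union_le (Finset.Ico (-⌊t⌋) (M - ⌊t⌋)) (Finset.Ico (-⌊t'⌋) (M - ⌊t'⌋))
    rw [Int.card_Ico, Int.card_Ico] at h3
    have h4 : ((M : ℤ) - ⌊t⌋ - -⌊t⌋).toNat + ((M : ℤ) - ⌊t'⌋ - -⌊t'⌋).toNat = 2 * M := by omega
    rw [h4] at h3
    exact_mod_cast h3
  have h5 : 0 ≤ (Λ : ℝ) * δ * |t - t'| := by positivity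
  calc _ ≤ (2 * M : ℝ) * (Λ * δ * |t - t'|) := mul_le_mul_of_nonneg_right h2 h5
    _ = _ := by ring

theorem q_meas (hq : Wt q A Λ) : Measurable fun p : Ω × ℝ => q p.1 p.2 := by
  have h := measurable_uncurry_of_continuous_of_measurable (u := fun (u : ℝ) (w : Ω) => q w u)
    (fun w => (hq.lip w).continuous) fun u => hq.meas u
  exact h.comp measurable_swap

theorem H_meas (hq : Wt q A Λ) {δ : ℝ} (h0 : 0 < δ) {M : ℕ} (hM : A < δ * M) :
    Measurable fun p : Ω × ℝ => H q δ p.1 p.2 := by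
  have h1 : (fun p : Ω × ℝ => H q δ p.1 p.2) =
      fun p => ∑ m ∈ Finset.range M, q p.1 (δ * (Int.fract p.2 + m)) := by
    funext p
    exact H_range hq h0 hM _ _
  rw [h1]
  refine Finset.measurable_sum _ fun m _ => ?_
  exact (q_meas hq).comp (measurable_fst.prodMk ((measurable_fract.comp measurable_snd |>.add_const _).const_mul _))

/-! ### The averages -/

/-- the averages along the orbit -/
noncomputable def av (q : Ω → ℝ → ℝ) (δ : ℝ) (T : Ω → Ω) (w : Ω) (t : ℝ) (K : ℕ) : ℝ :=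
  (∑ k ∈ Finset.range K, H q δ (T^[k] w) (t - k * δ⁻¹)) / K

/-- the limit superior of the averages -/
noncomputable def ls (q : Ω → ℝ → ℝ) (δ : ℝ) (T : Ω → Ω) (w : Ω) (t : ℝ) : ℝ :=
  limsup (av q δ T w t) atTop

theorem av_nonneg (hq : Wt q A Λ) (δ : ℝ) (T : Ω → Ω) (w : Ω) (t : ℝ) (K : ℕ) : 0 ≤ av q δ T w t K :=
  div_nonneg (Finset.sum_nonneg fun _ _ => H_nonneg hq _ _ _) (Nat.cast_nonneg _)

theorem av_bdd (hq : Wt q A Λ) {δ : ℝ} (h0 : 0 < δ) {M : ℕ} (hM : A < δ * M) (T : Ω → Ω) (w : Ω) (t : ℝ)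
    (K : ℕ) : |av q δ T w t K| ≤ M := by
  rw [abs_of_nonneg (av_nonneg hq _ _ _ _ _)]
  unfold av
  apply div_le_of_le_mul₀ (Nat.cast_nonneg _) (Nat.cast_nonneg _)
  calc _ ≤ ∑ k ∈ Finset.range K, (M : ℝ) := Finset.sum_le_sum fun k _ => H_le hq h0 hM _ _
    _ = M * K := by simp [mul_comm]

theorem av_lip (hq : Wt q A Λ) {δ : ℝ} (h0 : 0 < δ) {M : ℕ} (hM : A < δ * M) (T : Ω → Ω) (w : Ω) (t t' : ℝ)
    (K : ℕ) : |av q δ T w t K - av q δ T w t' K| ≤ 2 * M * (Λ * δ) * |t - t'| := by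
  unfold av
  rw [← sub_div, ← Finset.sum_sub_distrib, abs_div, abs_of_nonneg (Nat.cast_nonneg K : (0 : ℝ) ≤ K)]
  apply div_le_of_le_mul₀ (Nat.cast_nonneg _) (by positivity)
  refine (Finset.abs_sum_le_sum_abs _ _).trans ?_
  have h1 : ∀ k ∈ Finset.range K, |H q δ (T^[k] w) (t - k * δ⁻¹) - H q δ (T^[k] w) (t' - k * δ⁻¹)| ≤
      2 * M * (Λ * δ) * |t - t'| := by
    intro k _
    refine (H_lip hq h0 hM _ _ _).trans (le_of_eq ?_)
    congr 2
    ring
  refine (Finset.sum_le_sum h1).trans (le_of_eq ?_)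
  rw [Finset.sum_const, Finset.card_range, nsmul_eq_mul, mul_comm]

theorem ls_bdd (hq : Wt q A Λ) {δ : ℝ} (h0 : 0 < δ) {M : ℕ} (hM : A < δ * M) (T : Ω → Ω) (w : Ω) (t : ℝ) :
    |ls q δ T w t| ≤ M := limsup_bdd (av_bdd hq h0 hM T w t)

theorem ls_nonneg (hq : Wt q A Λ) {δ : ℝ} (h0 : 0 < δ) {M : ℕ} (hM : A < δ * M) (T : Ω → Ω) (w : Ω) (t : ℝ) :
    0 ≤ ls q δ T w t :=
  le_limsup_of_frequently_le (Frequently.of_forall fun n => av_nonneg hq _ _ _ _ n)
    (isBoundedUnder_of ⟨M, fun n => (abs_le.1 (av_bdd hq h0 hM T w t n)).2⟩)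

theorem ls_lip_le (hq : Wt q A Λ) {δ : ℝ} (h0 : 0 < δ) {M : ℕ} (hM : A < δ * M) (T : Ω → Ω) (w : Ω) (t t' : ℝ) :
    ls q δ T w t ≤ ls q δ T w t' + 2 * M * (Λ * δ) * |t - t'| := by
  refine limsup_le_of (e := fun _ => 0) (av_bdd hq h0 hM T w t) (av_bdd hq h0 hM T w t') tendsto_const_nhds
    (Eventually.of_forall fun K => ?_)
  have := (abs_le.1 (av_lip hq h0 hM T w t t' K)).2
  linarith

theorem ls_lip (hq : Wt q A Λ) {δ : ℝ} (h0 : 0 < δ) {M : ℕ} (hM : A < δ * M) (T : Ω → Ω) (w : Ω) (t t' : ℝ) :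
    |ls q δ T w t - ls q δ T w t'| ≤ 2 * M * (Λ * δ) * |t - t'| := by
  rw [abs_le]
  have h1 := ls_lip_le hq h0 hM T w t t'
  have h2 := ls_lip_le hq h0 hM T w t' t
  rw [abs_sub_comm] at h2
  constructor <;> linarith

omit [MeasurableSpace Ω] in
theorem av_shift (q : Ω → ℝ → ℝ) (δ : ℝ) (T : Ω → Ω) (w : Ω) (t : ℝ) (K : ℕ) :
    av q δ T (T w) (t - δ⁻¹) K = av q δ T w t K + 0 +
      (H q δ (T^[K] w) (t - K * δ⁻¹) - H q δ w t) / K := by
  unfold av
  have h1 : ∑ k ∈ Finset.range K, H q δ (T^[k] (T w)) (t - δ⁻¹ - k * δ⁻¹) =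
      ∑ k ∈ Finset.range K, H q δ (T^[k + 1] w) (t - (k + 1 : ℕ) * δ⁻¹) := by
    refine Finset.sum_congr rfl fun k _ => ?_
    rw [Function.iterate_succ_apply]
    congr 1
    push_cast
    ring
  have h2 := Finset.sum_range_succ' (fun k => H q δ (T^[k] w) (t - (k : ℕ) * δ⁻¹)) K
  rw [Finset.sum_range_succ] at h2
  have h3 : H q δ (T^[0] w) (t - (0 : ℕ) * δ⁻¹) = H q δ w t := by simp
  rw [h3] at h2
  rw [h1, add_zero, ← add_div]
  congr 1
  linarith

theorem ls_shift (hq : Wt q A Λ) {δ : ℝ} (h0 : 0 < δ) {M : ℕ} (hM : A < δ * M) (T : Ω → Ω) (w : Ω) (t : ℝ) :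
    ls q δ T (T w) (t - δ⁻¹) = ls q δ T w t := by
  have hb : ∀ K : ℕ, |(H q δ (T^[K] w) (t - K * δ⁻¹) - H q δ w t) / K| ≤ M / K := by
    intro K
    rw [abs_div, abs_of_nonneg (Nat.cast_nonneg K : (0 : ℝ) ≤ K)]
    refine div_le_div_of_nonneg_right ?_ (Nat.cast_nonneg K)
    have a1 := H_nonneg hq δ (T^[K] w) (t - K * δ⁻¹)
    have a2 := H_nonneg hq δ w t
    have a3 := H_le hq h0 hM (T^[K] w) (t - K * δ⁻¹)
    have a4 := H_le hq h0 hM w t
    rw [abs_le]
    constructor <;> linarith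
  have he : Tendsto (fun K : ℕ => (H q δ (T^[K] w) (t - K * δ⁻¹) - H q δ w t) / K) atTop (𝓝 0) :=
    squeeze_zero_norm (fun K => by rw [Real.norm_eq_abs]; exact hb K)
      (tendsto_const_nhds.div_atTop tendsto_natCast_atTop_atTop)
  apply le_antisymm
  · have h1 := limsup_le_of (c := 0) (av_bdd hq h0 hM T (T w) (t - δ⁻¹)) (av_bdd hq h0 hM T w t) he
      (Eventually.of_forall fun K => (av_shift q δ T w t K).le)
    rwa [add_zero] at h1
  · have he' := he.neg
    rw [neg_zero] at he'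
    have h1 := limsup_le_of (c := 0) (av_bdd hq h0 hM T w t) (av_bdd hq h0 hM T (T w) (t - δ⁻¹)) he'
      (Eventually.of_forall fun K => by
        rw [av_shift q δ T w t K]
        linarith)
    rwa [add_zero] at h1

omit [MeasurableSpace Ω] in
theorem ls_add_one (q : Ω → ℝ → ℝ) (δ : ℝ) (T : Ω → Ω) (w : Ω) (t : ℝ) :
    ls q δ T w (t + 1) = ls q δ T w t := by
  unfold ls
  congr 1
  funext K
  unfold av
  congr 1
  refine Finset.sum_congr rfl fun k _ => ?_
  rw [← H_add_one q δ _ (t - k * δ⁻¹)]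
  congr 1
  ring

theorem av_meas (hq : Wt q A Λ) {δ : ℝ} (h0 : 0 < δ) {M : ℕ} (hM : A < δ * M) {T : Ω → Ω} (hT : Measurable T)
    (K : ℕ) : Measurable fun p : Ω × ℝ => av q δ T p.1 p.2 K := by
  unfold av
  refine Measurable.div_const ?_ _
  refine Finset.measurable_sum _ fun k _ => ?_
  exact (H_meas hq h0 hM).comp (((hT.iterate k).comp measurable_fst).prodMk (measurable_snd.sub_const _))

theorem ls_meas (hq : Wt q A Λ) {δ : ℝ} (h0 : 0 < δ) {M : ℕ} (hM : A < δ * M) {T : Ω → Ω} (hT : Measurable T) :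
    Measurable fun p : Ω × ℝ => ls q δ T p.1 p.2 :=
  Measurable.limsup fun K => av_meas hq h0 hM hT K

theorem ls_meas' (hq : Wt q A Λ) {δ : ℝ} (h0 : 0 < δ) {M : ℕ} (hM : A < δ * M) {T : Ω → Ω} (hT : Measurable T)
    (t : ℝ) : Measurable fun w => ls q δ T w t := by
  have h := (ls_meas hq h0 hM hT).comp (measurable_prodMk_right (y := t))
  exact h

/-! ### The mean value of the limit superior does not depend on the phase -/

/-- the mean value -/
noncomputable def ell (μ : Measure Ω) (q : Ω → ℝ → ℝ) (δ : ℝ) (T : Ω → Ω) (t : ℝ) : ℝ := ∫ w, ls q δ T w t ∂μ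

variable {μ : Measure Ω} [IsProbabilityMeasure μ] {T : Ω → Ω}

theorem ls_int (hq : Wt q A Λ) {δ : ℝ} (h0 : 0 < δ) {M : ℕ} (hM : A < δ * M) (hT : Measurable T) (t : ℝ) :
    Integrable (fun w => ls q δ T w t) μ :=
  Integrable.of_bound (ls_meas' hq h0 hM hT t).aestronglyMeasurable M
    (Eventually.of_forall fun w => ls_bdd hq h0 hM T w t)

theorem ell_lip (hq : Wt q A Λ) {δ : ℝ} (h0 : 0 < δ) {M : ℕ} (hM : A < δ * M) (hT : Measurable T) (t t' : ℝ) :
    |ell μ q δ T t - ell μ q δ T t'| ≤ 2 * M * (Λ * δ) * |t - t'| := by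
  unfold ell
  rw [← integral_sub (ls_int hq h0 hM hT t) (ls_int hq h0 hM hT t'), ← Real.norm_eq_abs]
  have h := norm_integral_le_of_norm_le_const (μ := μ) (f := fun w => ls q δ T w t - ls q δ T w t')
    (Eventually.of_forall fun w => ls_lip hq h0 hM T w t t')
  simpa using h

theorem ell_cont (hq : Wt q A Λ) {δ : ℝ} (h0 : 0 < δ) {M : ℕ} (hM : A < δ * M) (hT : Measurable T) :
    Continuous (ell μ q δ T) := by
  have h : LipschitzWith (2 * M * (Λ * δ)).toNNReal (ell μ q δ T) := by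
    refine LipschitzWith.of_dist_le_mul fun t t' => ?_
    rw [Real.dist_eq, Real.dist_eq, Real.coe_toNNReal _ (by positivity)]
    exact ell_lip hq h0 hM hT t t'
  exact h.continuous

omit [IsProbabilityMeasure μ] in
theorem int_comp (hT : MeasurePreserving T μ μ) {f : Ω → ℝ} (hf : Measurable f) :
    ∫ w, f (T w) ∂μ = ∫ w, f w ∂μ := by
  have h3 := integral_map (μ := μ) hT.measurable.aemeasurable (f := f) hf.aestronglyMeasurable
  rw [hT.map_eq] at h3
  exact h3.symm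

omit [IsProbabilityMeasure μ] in
theorem ell_shift (hq : Wt q A Λ) {δ : ℝ} (h0 : 0 < δ) {M : ℕ} (hM : A < δ * M) (hT : MeasurePreserving T μ μ) (t : ℝ) :
    ell μ q δ T (t - δ⁻¹) = ell μ q δ T t := by
  have h2 := ls_meas' hq h0 hM hT.measurable (t - δ⁻¹)
  have h3 := int_comp hT h2
  unfold ell
  rw [← h3]
  exact integral_congr_ae (Eventually.of_forall fun w => ls_shift hq h0 hM T w t)

omit [IsProbabilityMeasure μ] in
theorem ell_add_one {δ : ℝ} (t : ℝ) : ell μ q δ T (t + 1) = ell μ q δ T t := by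
  unfold ell
  exact integral_congr_ae (Eventually.of_forall fun w => ls_add_one q δ T w t)

theorem const_of {f : ℝ → ℝ} (hf : Continuous f) {a : ℝ} (ha : Irrational a) (h1 : ∀ t, f (t + 1) = f t)
    (h2 : ∀ t, f (t - a⁻¹) = f t) (t t' : ℝ) : f t = f t' := by
  let P : ℝ → Prop := fun c => ∀ t, f (t + c) = f t
  have hcl : IsClosed {c | P c} := by
    have h1 : {c | P c} = ⋂ t : ℝ, {c | f (t + c) = f t} := by
      ext c
      simp [P]
    rw [h1]
    refine isClosed_iInter fun t => ?_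
    exact isClosed_eq (hf.comp (continuous_const.add continuous_id)) continuous_const
  have hind : ∀ c ∈ AddSubgroup.closure {(1 : ℝ), a⁻¹}, P c := by
    intro c hc
    refine AddSubgroup.closure_induction (p := fun c _ => P c) ?_ ?_ ?_ ?_ hc
    · intro x hx
      rcases hx with hx | hx
      · rw [hx]
        exact h1
      · rw [Set.mem_singleton_iff] at hx
        rw [hx]
        intro t
        have h3 := h2 (t + a⁻¹)
        rw [add_sub_cancel_right] at h3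
        exact h3.symm
    · intro t
      rw [add_zero]
    · intro x y _ _ hx hy t
      rw [← add_assoc, hy, hx]
    · intro x _ hx t
      have h1 := hx (t + -x)
      rw [neg_add_cancel_right] at h1
      exact h1.symm
  have hsub : (AddSubgroup.closure {(1 : ℝ), a⁻¹} : Set ℝ) ⊆ {c | P c} := hind
  have hd : Dense (AddSubgroup.closure {(1 : ℝ), a⁻¹} : Set ℝ) := by
    rw [dense_addSubgroupClosure_pair_iff]
    rwa [one_div, inv_inv]
  have hall : P (t - t') := by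
    have h1 : closure (AddSubgroup.closure {(1 : ℝ), a⁻¹} : Set ℝ) ⊆ {c | P c} := closure_minimal hsub hcl
    rw [hd.closure_eq] at h1
    exact h1 (Set.mem_univ _)
  have h2 := hall t'
  rwa [add_sub_cancel] at h2

theorem ell_const (hq : Wt q A Λ) {δ : ℝ} (h0 : 0 < δ) (hδ : Irrational δ) {M : ℕ} (hM : A < δ * M)
    (hT : MeasurePreserving T μ μ) (t t' : ℝ) : ell μ q δ T t = ell μ q δ T t' :=
  const_of (ell_cont hq h0 hM hT.measurable) hδ ell_add_one (ell_shift hq h0 hM hT) t t'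

/-! ### Birkhoff's theorem on the product with the circle -/

local instance : IsProbabilityMeasure (volume : Measure UnitAddCircle) := ⟨UnitAddCircle.measure_univ⟩

/-- the representative in `[0,1)` -/
noncomputable def rep (x : UnitAddCircle) : ℝ := (AddCircle.equivIco (1 : ℝ) 0 x : ℝ)

theorem rep_coe (x : ℝ) : rep (x : UnitAddCircle) = Int.fract x := by
  unfold rep
  rw [AddCircle.coe_equivIco_mk_apply, div_one, mul_one]

theorem coe_rep (x : UnitAddCircle) : ((rep x : ℝ) : UnitAddCircle) = x :=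
  (AddCircle.equivIco (1 : ℝ) 0).symm_apply_apply x

theorem rep_meas : Measurable rep :=
  measurable_subtype_coe.comp (AddCircle.measurableEquivIco (1 : ℝ) 0).measurable

/-- the rotation -/
noncomputable def SS (δ : ℝ) (T : Ω → Ω) : Ω × UnitAddCircle → Ω × UnitAddCircle :=
  Prod.map T fun x => x - ((δ⁻¹ : ℝ) : UnitAddCircle)

/-- the periodic weight on the product -/
noncomputable def hh (q : Ω → ℝ → ℝ) (δ : ℝ) (p : Ω × UnitAddCircle) : ℝ := H q δ p.1 (rep p.2)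

omit [MeasurableSpace Ω] in
theorem hh_iterate (q : Ω → ℝ → ℝ) (δ : ℝ) (T : Ω → Ω) (k : ℕ) (w : Ω) (x : UnitAddCircle) :
    hh q δ ((SS δ T)^[k] (w, x)) = H q δ (T^[k] w) (rep x - k * δ⁻¹) := by
  have h1 : (SS δ T)^[k] (w, x) = (T^[k] w, ((rep x - k * δ⁻¹ : ℝ) : UnitAddCircle)) := by
    induction k with
    | zero => simp [coe_rep]
    | succ k ih =>
      rw [Function.iterate_succ_apply', ih, Function.iterate_succ_apply']
      show (T (T^[k] w), ((rep x - k * δ⁻¹ : ℝ) : UnitAddCircle) - ((δ⁻¹ : ℝ) : UnitAddCircle)) = _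
      rw [← AddCircle.coe_sub]
      congr 2
      push_cast
      ring
  rw [h1]
  show H q δ (T^[k] w) (rep ((rep x - k * δ⁻¹ : ℝ) : UnitAddCircle)) = _
  rw [rep_coe, H_fract]

theorem hh_meas (hq : Wt q A Λ) {δ : ℝ} (h0 : 0 < δ) {M : ℕ} (hM : A < δ * M) : Measurable (hh q δ) := by
  have h := (H_meas hq h0 hM).comp (measurable_fst.prodMk (rep_meas.comp measurable_snd))
  exact h

omit [IsProbabilityMeasure μ] in
theorem SS_pres [SFinite μ] (hT : MeasurePreserving T μ μ) (δ : ℝ) :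
    MeasurePreserving (SS δ T) (μ.prod volume) (μ.prod volume) :=
  hT.prod (measurePreserving_sub_right volume _)

theorem int_ls (hq : Wt q A Λ) {δ : ℝ} (h0 : 0 < δ) {M : ℕ} (hM : A < δ * M) (hT : MeasurePreserving T μ μ) :
    ∫ x : UnitAddCircle, ell μ q δ T (rep x) = ∫ w, (∫ x : UnitAddCircle, H q δ w (rep x)) ∂μ := by
  have hb : ∀ p, |hh q δ p| ≤ M := by
    intro p
    unfold hh
    rw [abs_of_nonneg (H_nonneg hq _ _ _)]
    exact H_le hq h0 hM _ _
  obtain ⟨G, hG, hGb, -, hlim, hint⟩ := Pool.Agent.Helper18.SD.birkhoff_bdd (SS_pres hT δ) (hh_meas hq h0 hM) hb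
  have h1 : (fun p : Ω × UnitAddCircle => ls q δ T p.1 (rep p.2)) =ᵐ[μ.prod volume] G := by
    filter_upwards [hlim] with p hp
    have h2 : (fun n : ℕ => (∑ k ∈ Finset.range n, hh q δ ((SS δ T)^[k] p)) / n) = av q δ T p.1 (rep p.2) := by
      funext n
      unfold av
      congr 1
      exact Finset.sum_congr rfl fun k _ => hh_iterate q δ T k p.1 p.2
    rw [h2] at hp
    exact hp.limsup_eq
  have h2 : ∫ p, ls q δ T p.1 (rep p.2) ∂(μ.prod volume) = ∫ p, hh q δ p ∂(μ.prod volume) := by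
    rw [← hint]
    exact integral_congr_ae h1
  have m1 : Measurable fun p : Ω × UnitAddCircle => ls q δ T p.1 (rep p.2) := by
    have h := (ls_meas hq h0 hM hT.measurable).comp (measurable_fst.prodMk (rep_meas.comp measurable_snd))
    exact h
  have i1 : Integrable (fun p : Ω × UnitAddCircle => ls q δ T p.1 (rep p.2)) (μ.prod volume) :=
    Integrable.of_bound m1.aestronglyMeasurable M (Eventually.of_forall fun p => ls_bdd hq h0 hM T _ _)
  have i2 : Integrable (hh q δ) (μ.prod (volume : Measure UnitAddCircle)) :=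
    Integrable.of_bound (hh_meas hq h0 hM).aestronglyMeasurable M (Eventually.of_forall fun p => hb p)
  rw [integral_prod_symm _ i1, integral_prod _ i2] at h2
  exact h2

theorem int_H (hq : Wt q A Λ) {δ : ℝ} (h0 : 0 < δ) {M : ℕ} (hM : A < δ * M) (w : Ω) :
    ∫ x : UnitAddCircle, H q δ w (rep x) = δ⁻¹ * ∫ u in (0 : ℝ)..A, q w u := by
  have hc : Continuous (q w) := (hq.lip w).continuous
  rw [← UnitAddCircle.integral_preimage 0, zero_add]
  have h1 : ∫ a in Set.Ioc (0 : ℝ) 1, H q δ w (rep (a : UnitAddCircle)) =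
      ∫ a in Set.Ioc (0 : ℝ) 1, ∑ m ∈ Finset.range M, q w (δ * (a + m)) := by
    rw [integral_Ioc_eq_integral_Ioo, integral_Ioc_eq_integral_Ioo]
    refine setIntegral_congr_fun measurableSet_Ioo fun a ha => ?_
    show H q δ w (rep (a : UnitAddCircle)) = _
    rw [rep_coe, H_fract, H_range hq h0 hM]
    have h2 : Int.fract a = a := Int.fract_eq_self.2 ⟨ha.1.le, ha.2⟩
    rw [h2]
  rw [h1, ← intervalIntegral.integral_of_le zero_le_one, intervalIntegral.integral_finsetSum]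
  · have h2 : ∀ m ∈ Finset.range M, ∫ a in (0 : ℝ)..1, q w (δ * (a + m)) =
        ∫ a in ((m : ℕ) : ℝ)..((m + 1 : ℕ) : ℝ), q w (δ * a) := by
      intro m _
      have h3 := intervalIntegral.integral_comp_add_right (a := 0) (b := 1) (fun a => q w (δ * a)) (m : ℝ)
      rw [h3, zero_add]
      congr 1
      push_cast
      ring
    rw [Finset.sum_congr rfl h2, intervalIntegral.sum_integral_adjacent_intervals (a := fun k : ℕ => (k : ℝ))
      (f := fun a => q w (δ * a))]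
    · rw [intervalIntegral.integral_comp_mul_left _ h0.ne', smul_eq_mul]
      congr 1
      have h4 : δ * ((0 : ℕ) : ℝ) = 0 := by simp
      rw [h4, ← intervalIntegral.integral_add_adjacent_intervals (b := A) (hc.intervalIntegrable _ _)
        (hc.intervalIntegrable _ _)]
      have h5 : ∫ u in A..(δ * M), q w u = 0 := by
        rw [intervalIntegral.integral_of_le hM.le]
        refine setIntegral_eq_zero_of_forall_eq_zero fun u hu => hq.supp w u fun h => ?_
        exact absurd h.2 (not_le.2 hu.1)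
      rw [h5, add_zero]
    · intro k _
      exact (hc.comp (continuous_const.mul continuous_id)).intervalIntegrable _ _
  · intro m _
    exact (hc.comp (continuous_const.mul (continuous_id.add continuous_const))).intervalIntegrable _ _

theorem ell_eq (hq : Wt q A Λ) {δ : ℝ} (h0 : 0 < δ) (hδ : Irrational δ) {M : ℕ} (hM : A < δ * M)
    (hT : MeasurePreserving T μ μ) (t : ℝ) :
    ell μ q δ T t = δ⁻¹ * ∫ w, (∫ u in (0 : ℝ)..A, q w u) ∂μ := by
  have h1 := int_ls hq h0 hM hT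
  rw [integral_congr_ae (Eventually.of_forall fun x => ell_const hq h0 hδ hM hT (rep x) t), integral_const] at h1
  rw [integral_congr_ae (Eventually.of_forall fun w => int_H hq h0 hM w), integral_const_mul] at h1
  simpa using h1

end Pool.Agent.Helper17.HP
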